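import Pool.Agent.Q72.AL.Stm4

/-! Project AL (helper72), job LIMB. -/

set_option autoImplicit false
set_option linter.unusedSectionVars false
set_option linter.unusedVariables false

open Complex MeasureTheory Filter Topology Set
open Pool.Agent.Q72.AL

namespace Pool.Agent.Q90.AL

/-- JOB LIMB -/
theorem limb (h1 : J_CHAINB) (h2 : J_DUAL) (h3 : J_AAL) : J_LIMB := by
  intro hRH a hyp
  obtain ⟨C, δ0, hC, hδ0', hch⟩ := h1 hRH a
  obtain ⟨S, hS⟩ := h3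
  refine ⟨W0 * S, C, hC, ?_⟩
  intro c hc0 hc1
  obtain ⟨C1, hC1, hch1⟩ := hch c hc0 hc1
  obtain ⟨K, hK⟩ : ∃ K : ℝ, K = 2 * Real.pi * Real.exp (2 * a) := ⟨_, rfl⟩
  have hK0 : 0 < K := by rw [hK]; positivity
  refine le_of_forall_pos_le_add fun ε hε => ?_
  obtain ⟨δ, hδ⟩ : ∃ δ : ℝ, δ = min δ0 (ε / (4 * C1)) := ⟨_, rfl⟩
  have hδ0 : 0 < δ := by rw [hδ]; exact lt_min hδ0' (by positivity)
  have hδ1 : δ ≤ δ0 := by rw [hδ]; exact min_le_left _ _
  have hδ2 : C1 * δ ≤ ε / 4 := by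
    have : δ ≤ ε / (4 * C1) := by rw [hδ]; exact min_le_right _ _
    calc C1 * δ ≤ C1 * (ε / (4 * C1)) := mul_le_mul_of_nonneg_left this hC1.le
      _ = ε / 4 := by field_simp
  obtain ⟨X0, hX0⟩ := hch1 δ hδ0 hδ1
  have e2 := h2 (K / c) (by positivity)
  have e3 := (Metric.tendsto_nhds.1 e2) (ε / 4) (by positivity)
  have e4 : Tendsto (fun X : ℝ => Real.log (c * X)) atTop atTop :=
    Real.tendsto_log_atTop.comp (tendsto_id.const_mul_atTop hc0)
  have e5 : Tendsto (fun X : ℝ => W0 * AA 2 (Real.log (c * X))) atTop (𝓝 (W0 * S)) :=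
    (hS.comp e4).const_mul W0
  have e6 := (Metric.tendsto_nhds.1 e5) (ε / 4) (by positivity)
  obtain ⟨X, hX, hX1, hX2, hX3⟩ :=
    ((hyp δ hδ0).and_eventually ((eventually_ge_atTop X0).and (e3.and e6))).exists
  have x1 := hX0 X hX1 hX
  rw [Real.dist_eq] at hX2 hX3
  rw [← hK] at x1 ⊢
  have x3 := abs_sub_le (W0 * S) (W0 * AA 2 (Real.log (c * X))) (BB (K / c))
  have x4 := abs_sub_le (W0 * AA 2 (Real.log (c * X))) (1 / X * ∫ T in X..(2 * X), wt (T / X) *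
    ‖DD 2 (Real.log (K / c) + Real.log (T / X)) T‖ ^ 2) (BB (K / c))
  rw [abs_sub_comm (W0 * S) (W0 * AA 2 (Real.log (c * X)))] at x3
  linarith

end Pool.Agent.Q90.AL
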